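import Pool.Agent.H741.RS.Stm

/-!
# Proportional coprime polynomial vectors (helper747)
-/

set_option autoImplicit false

namespace Pool.Agent.H747.RS

open Pool.Agent.H741.RS

/-- The general form in a domain with greatest common divisors. -/
theorem ufd {A : Type*} [CommRing A] [IsDomain A] [StrongNormalizedGCDMonoid A] {m : ℕ}
    (L R : Fin m → A) (h : ∀ i j, L i * R j = L j * R i) (hR : ∀ r, (∀ i, r ∣ R i) → IsUnit r) :
    ∃ lam, ∀ i, L i = lam * R i := by
  have hne : ∃ i, R i ≠ 0 := by
    by_contra hcon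
    push Not at hcon
    exact not_isUnit_zero (hR 0 fun i => by rw [hcon i])
  obtain ⟨i, hi⟩ := hne
  have hu : IsUnit (Finset.univ.gcd R) := hR _ fun j => Finset.gcd_dvd (Finset.mem_univ j)
  have h1 : R i ∣ Finset.univ.gcd (fun j => L i * R j) := by
    refine Finset.dvd_gcd fun j _ => ?_
    rw [h i j]
    exact dvd_mul_left _ _
  have h2 : R i ∣ L i := by
    have h3 : R i ∣ L i * Finset.univ.gcd R :=
      h1.trans (Finset.gcd_mul_left' Finset.univ R (L i)).dvd
    exact (hu.dvd_mul_right).mp h3
  obtain ⟨lam, hlam⟩ := h2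
  refine ⟨lam, fun j => ?_⟩
  apply mul_right_cancel₀ hi
  rw [← h i j, hlam]
  ring

theorem t_UFD : S_UFD := by
  intro n m L R h hR
  classical
  let _ : StrongNormalizationMonoid (MvPolynomial (Fin n) ℂ) :=
    UniqueFactorizationMonoid.strongNormalizationMonoid
  let _ : StrongNormalizedGCDMonoid (MvPolynomial (Fin n) ℂ) :=
    UniqueFactorizationMonoid.toStrongNormalizedGCDMonoid _
  exact ufd L R h hR

end Pool.Agent.H747.RS
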